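import Mathlib

/-! I2: a closed set `T` of reals such that among any four reals two have their difference in `T` contains, in every window of a fixed length `C`, an interval of a fixed length `κ`. -/

open Set

namespace Pool.Agent.LibKN93

private theorem I2_ball {T : Set ℝ} (hT : IsClosed T) {x : ℝ} (hx : x ∉ T) : ∃ r : ℝ, 0 < r ∧ ∀ u, |u - x| < r → u ∉ T := by
  obtain ⟨r, hr, h⟩ := Metric.isOpen_iff.1 hT.isOpen_compl x hx
  refine ⟨r, hr, fun u hu => h ?_⟩
  rw [Metric.mem_ball, Real.dist_eq]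
  exact hu

theorem unif_intervals (T : Set ℝ) (hT : IsClosed T) (hP : ∀ t : Fin 4 → ℝ, StrictMono t → ∃ i j, i < j ∧ t j - t i ∈ T) :
    ∃ κ : ℝ, 0 < κ ∧ ∃ C : ℝ, ∀ s : ℝ, 0 ≤ s → ∃ y, s ≤ y ∧ y ≤ s + C ∧ Icc y (y + κ) ⊆ T := by
  by_contra hcon
  push Not at hcon
  have H : ∀ κ : ℝ, 0 < κ → ∀ C : ℝ, ∃ s : ℝ, 0 ≤ s ∧ ∀ y, s ≤ y → y ≤ s + C → ∃ d, y ≤ d ∧ d ≤ y + κ ∧ d ∉ T := by
    intro κ hκ C
    obtain ⟨s, hs, h⟩ := hcon κ hκ C
    refine ⟨s, hs, fun y hy1 hy2 => ?_⟩
    obtain ⟨d, hd, hdT⟩ := Set.not_subset.1 (h y hy1 hy2)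
    exact ⟨d, hd.1, hd.2, hdT⟩
  -- first point
  obtain ⟨s1, hs1, h1⟩ := H 1 one_pos 2
  obtain ⟨x, hx1, hx2, hxT⟩ := h1 (s1 + 1) (by linarith) (by linarith)
  obtain ⟨r1, hr1, hb1⟩ := I2_ball hT hxT
  have hx0 : 1 ≤ x := by linarith
  set l1 : ℝ := min r1 (1 / 2) with hl1
  have hl1p : 0 < l1 := lt_min hr1 (by norm_num)
  have hl1r : l1 ≤ r1 := min_le_left _ _
  have hl1h : l1 ≤ 1 / 2 := min_le_right _ _
  -- second point
  obtain ⟨s2, hs2, h2⟩ := H (l1 / 2) (by positivity) (2 * x + 10)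
  obtain ⟨y, hy1, hy2, hyT⟩ := h2 (s2 + 2 * x + 2) (by linarith) (by linarith)
  obtain ⟨d, hd1, hd2, hdT⟩ := h2 (y - x - l1 / 2) (by linarith) (by linarith)
  have hx'T : y - d ∉ T := hb1 _ (by rw [abs_lt]; constructor <;> linarith)
  have hx'0 : 0 < y - d := by linarith
  have hx'y : y - d < y := by linarith
  set x' : ℝ := y - d with hx'
  obtain ⟨ra, hra, hba⟩ := I2_ball hT hx'T
  obtain ⟨rb, hrb, hbb⟩ := I2_ball hT hyT
  obtain ⟨rc, hrc, hbc⟩ := I2_ball hT hdT
  have hdy : d = y - x' := by rw [hx']; ring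
  set l2 : ℝ := min (min ra rb) (min (rc / 2) (min (x' / 2) (min ((y - x') / 4) (1 / 2)))) with hl2
  have hl2p : 0 < l2 := by
    refine lt_min (lt_min hra hrb) (lt_min (by positivity) (lt_min (by positivity) (lt_min ?_ (by norm_num))))
    linarith
  have e1 : l2 ≤ ra := (min_le_left _ _).trans (min_le_left _ _)
  have e2 : l2 ≤ rb := (min_le_left _ _).trans (min_le_right _ _)
  have e3 : l2 ≤ rc / 2 := (min_le_right _ _).trans (min_le_left _ _)
  have e4 : l2 ≤ x' / 2 := ((min_le_right _ _).trans (min_le_right _ _)).trans (min_le_left _ _)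
  have e5 : l2 ≤ (y - x') / 4 :=
    (((min_le_right _ _).trans (min_le_right _ _)).trans (min_le_right _ _)).trans (min_le_left _ _)
  have e6 : l2 ≤ 1 / 2 :=
    (((min_le_right _ _).trans (min_le_right _ _)).trans (min_le_right _ _)).trans (min_le_right _ _)
  -- third point
  obtain ⟨s3, hs3, h3⟩ := H (l2 / 2) (by positivity) (2 * y + 10)
  obtain ⟨z, hz1, hz2, hzT⟩ := h3 (s3 + 2 * y + 2) (by linarith) (by linarith)
  obtain ⟨d1, hd11, hd12, hd1T⟩ := h3 (z - x' - l2 / 2) (by linarith) (by linarith)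
  obtain ⟨d2, hd21, hd22, hd2T⟩ := h3 (z - y - l2 / 2) (by linarith) (by linarith)
  have hX : z - d1 ∉ T := hba _ (by rw [abs_lt]; constructor <;> linarith)
  have hY : z - d2 ∉ T := hbb _ (by rw [abs_lt]; constructor <;> linarith)
  have hXY : d1 - d2 ∉ T := hbc _ (by rw [abs_lt]; constructor <;> linarith)
  have p1 : 0 < z - d1 := by linarith
  have p2 : z - d1 < z - d2 := by linarith
  have p3 : z - d2 < z := by linarith
  have hmono : StrictMono ![0, z - d1, z - d2, z] := by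
    rw [Fin.strictMono_iff_lt_succ]
    intro i
    fin_cases i
    · simpa using p1
    · simpa using p2
    · simpa using p3
  obtain ⟨i, j, hij, hmem⟩ := hP _ hmono
  have key : ∀ i j : Fin 4, i < j → (![0, z - d1, z - d2, z] : Fin 4 → ℝ) j - (![0, z - d1, z - d2, z] : Fin 4 → ℝ) i ∉ T := by
    have k1 : z - d2 - (z - d1) ∉ T := by
      have : z - d2 - (z - d1) = d1 - d2 := by ring
      rw [this]
      exact hXY
    have k2 : z - (z - d1) ∉ T := by
      have : z - (z - d1) = d1 := by ring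
      rw [this]
      exact hd1T
    have k3 : z - (z - d2) ∉ T := by
      have : z - (z - d2) = d2 := by ring
      rw [this]
      exact hd2T
    have k4 : z - d1 - 0 ∉ T := by rw [sub_zero]; exact hX
    have k5 : z - d2 - 0 ∉ T := by rw [sub_zero]; exact hY
    have k6 : z - 0 ∉ T := by rw [sub_zero]; exact hzT
    intro i j hij
    fin_cases i <;> fin_cases j
    all_goals first
      | exact absurd hij (by decide)
      | exact k4
      | exact k5
      | exact k6
      | exact k1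
      | exact k2
      | exact k3
  exact key i j hij hmem

end Pool.Agent.LibKN93
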